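import Mathlib

set_option autoImplicit false

/-!
# One dimensional estimates for the radial Cantor set

`C n` is the `n`-th stage of the middle thirds Cantor set.  The set
`{y ≥ 0 : y ^ 2 + t ∈ C n}` has measure at most `4 (2 / 3) ^ n`, uniformly in `t`.
-/

namespace Pool.Agent.Y237.Rog

open MeasureTheory Set

/-- stages of the middle thirds Cantor set -/
def C : ℕ → Set ℝ
  | 0 => Icc 0 1
  | n + 1 => {s | 3 * s ∈ C n ∨ 3 * s - 2 ∈ C n}

theorem C_sub (n : ℕ) : C n ⊆ Icc 0 1 := by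
  induction n with
  | zero => exact subset_rfl
  | succ n ih =>
    rintro s (h | h)
    · have := ih h
      exact ⟨by linarith [this.1], by linarith [this.2]⟩
    · have := ih h
      exact ⟨by linarith [this.1], by linarith [this.2]⟩

theorem C_closed (n : ℕ) : IsClosed (C n) := by
  induction n with
  | zero => exact isClosed_Icc
  | succ n ih =>
    have h1 : IsClosed {s : ℝ | 3 * s ∈ C n} := ih.preimage (by fun_prop)
    have h2 : IsClosed {s : ℝ | 3 * s - 2 ∈ C n} := ih.preimage (by fun_prop)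
    exact h1.union h2

theorem C_anti (n : ℕ) : C (n + 1) ⊆ C n := by
  induction n with
  | zero => exact C_sub 1
  | succ n ih =>
    rintro s (h | h)
    · exact Or.inl (ih h)
    · exact Or.inr (ih h)

/-- the measure of `{y ≥ 0 : y ^ 2 + t ∈ C n}` -/
noncomputable def G (n : ℕ) (t : ℝ) : ENNReal := volume {y : ℝ | 0 ≤ y ∧ y ^ 2 + t ∈ C n}

theorem sq3 : (Real.sqrt 3) ^ 2 = 3 := Real.sq_sqrt (by norm_num)

theorem sqrt3_pos : 0 < Real.sqrt 3 := Real.sqrt_pos.2 (by norm_num)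

theorem vol_scale (s : Set ℝ) :
    volume ((fun y => Real.sqrt 3 * y) ⁻¹' s) = ENNReal.ofReal (1 / Real.sqrt 3) * volume s := by
  rw [Real.volume_preimage_mul_left sqrt3_pos.ne']
  rw [abs_of_pos (inv_pos.2 sqrt3_pos), one_div]

theorem G_succ (n : ℕ) (t : ℝ) :
    G (n + 1) t ≤ ENNReal.ofReal (1 / Real.sqrt 3) * (G n (3 * t) + G n (3 * t - 2)) := by
  have hsub : {y : ℝ | 0 ≤ y ∧ y ^ 2 + t ∈ C (n + 1)} ⊆
      ((fun y => Real.sqrt 3 * y) ⁻¹' {y : ℝ | 0 ≤ y ∧ y ^ 2 + 3 * t ∈ C n}) ∪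
      ((fun y => Real.sqrt 3 * y) ⁻¹' {y : ℝ | 0 ≤ y ∧ y ^ 2 + (3 * t - 2) ∈ C n}) := by
    rintro y ⟨h0, h | h⟩
    · left
      refine ⟨by positivity, ?_⟩
      rw [mul_pow, sq3]
      convert h using 1
      ring
    · right
      refine ⟨by positivity, ?_⟩
      rw [mul_pow, sq3]
      convert h using 1
      ring
  refine (measure_mono hsub).trans ((measure_union_le _ _).trans ?_)
  rw [vol_scale, vol_scale, ← mul_add]
  exact le_rfl

theorem G_succ' (n : ℕ) (t : ℝ) (ht : 1 / 3 < t) :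
    G (n + 1) t ≤ ENNReal.ofReal (1 / Real.sqrt 3) * G n (3 * t - 2) := by
  have hsub : {y : ℝ | 0 ≤ y ∧ y ^ 2 + t ∈ C (n + 1)} ⊆
      ((fun y => Real.sqrt 3 * y) ⁻¹' {y : ℝ | 0 ≤ y ∧ y ^ 2 + (3 * t - 2) ∈ C n}) := by
    rintro y ⟨h0, h | h⟩
    · exfalso
      have := (C_sub n h).2
      nlinarith [sq_nonneg y]
    · refine ⟨by positivity, ?_⟩
      rw [mul_pow, sq3]
      convert h using 1
      ring
  refine (measure_mono hsub).trans ?_
  rw [vol_scale]
  exact le_rfl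

theorem G_neg (n : ℕ) : ∀ τ : ℝ, 0 < τ →
    G n (-τ) ≤ ENNReal.ofReal ((2 / 3) ^ n / (2 * Real.sqrt τ)) := by
  induction n with
  | zero =>
    intro τ hτ
    have hsub : {y : ℝ | 0 ≤ y ∧ y ^ 2 + -τ ∈ C 0} ⊆ Icc (Real.sqrt τ) (Real.sqrt (τ + 1)) := by
      rintro y ⟨h0, h1, h2⟩
      refine ⟨Real.sqrt_le_iff.2 ⟨h0, by linarith⟩, Real.le_sqrt_of_sq_le (by linarith)⟩
    refine (measure_mono hsub).trans ?_
    rw [Real.volume_Icc]
    apply ENNReal.ofReal_le_ofReal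
    have hs : 0 < Real.sqrt τ := Real.sqrt_pos.2 hτ
    rw [pow_zero, le_div_iff₀ (by positivity)]
    have e1 : Real.sqrt τ ^ 2 = τ := Real.sq_sqrt hτ.le
    have e2 : Real.sqrt (τ + 1) ^ 2 = τ + 1 := Real.sq_sqrt (by linarith)
    have e3 : Real.sqrt τ ≤ Real.sqrt (τ + 1) := Real.sqrt_le_sqrt (by linarith)
    nlinarith
  | succ n ih =>
    intro τ hτ
    have h1 := G_succ n (-τ)
    have h2 := ih (3 * τ) (by linarith)
    have h3 := ih (3 * τ + 2) (by linarith)
    rw [show 3 * -τ = -(3 * τ) by ring, show -(3 * τ) - 2 = -(3 * τ + 2) by ring] at h1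
    refine h1.trans ((mul_le_mul_right (add_le_add h2 h3) _).trans ?_)
    rw [← ENNReal.ofReal_add (by positivity) (by positivity),
      ← ENNReal.ofReal_mul (by positivity)]
    apply ENNReal.ofReal_le_ofReal
    have e1 : Real.sqrt (3 * τ) = Real.sqrt 3 * Real.sqrt τ := Real.sqrt_mul (by norm_num) τ
    have e2 : Real.sqrt (3 * τ) ≤ Real.sqrt (3 * τ + 2) := Real.sqrt_le_sqrt (by linarith)
    have hs : 0 < Real.sqrt τ := Real.sqrt_pos.2 hτ
    have h3p := sqrt3_pos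
    have hs3 : 0 < Real.sqrt (3 * τ) := Real.sqrt_pos.2 (by linarith)
    have e3 : ((2 : ℝ) / 3) ^ n / (2 * Real.sqrt (3 * τ + 2)) ≤
        (2 / 3) ^ n / (2 * Real.sqrt (3 * τ)) := by
      gcongr
    calc 1 / Real.sqrt 3 * ((2 / 3) ^ n / (2 * Real.sqrt (3 * τ)) +
          (2 / 3) ^ n / (2 * Real.sqrt (3 * τ + 2)))
        ≤ 1 / Real.sqrt 3 * ((2 / 3) ^ n / (2 * Real.sqrt (3 * τ)) +
          (2 / 3) ^ n / (2 * Real.sqrt (3 * τ))) := by gcongr
      _ = (2 / 3) ^ (n + 1) / (2 * Real.sqrt τ) := by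
          rw [e1]
          field_simp
          rw [sq3, pow_succ]
          ring

theorem G_le (n : ℕ) : ∀ t : ℝ, G n t ≤ ENNReal.ofReal (4 * (2 / 3) ^ n) := by
  have hsq : (1.7 : ℝ) ≤ Real.sqrt 3 := Real.le_sqrt_of_sq_le (by norm_num)
  have h3p := sqrt3_pos
  induction n with
  | zero =>
    intro t
    rcases le_or_gt 0 t with ht | ht
    · have hsub : {y : ℝ | 0 ≤ y ∧ y ^ 2 + t ∈ C 0} ⊆ Icc 0 1 := by
        rintro y ⟨h0, h1, h2⟩
        exact ⟨h0, by nlinarith⟩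
      refine (measure_mono hsub).trans ?_
      rw [Real.volume_Icc]
      apply ENNReal.ofReal_le_ofReal
      norm_num
    · have hsub : {y : ℝ | 0 ≤ y ∧ y ^ 2 + t ∈ C 0} ⊆
          Icc (Real.sqrt (-t)) (Real.sqrt (-t) + 1) := by
        rintro y ⟨h0, h1, h2⟩
        have e1 : Real.sqrt (-t) ^ 2 = -t := Real.sq_sqrt (by linarith)
        have e0 : 0 ≤ Real.sqrt (-t) := Real.sqrt_nonneg _
        refine ⟨Real.sqrt_le_iff.2 ⟨h0, by linarith⟩, ?_⟩
        by_contra hcon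
        push Not at hcon
        nlinarith
      refine (measure_mono hsub).trans ?_
      rw [Real.volume_Icc]
      apply ENNReal.ofReal_le_ofReal
      norm_num
  | succ n ih =>
    intro t
    have hp : (0 : ℝ) < (2 / 3) ^ n := by positivity
    rcases le_or_gt t (1 / 3) with ht | ht
    · have h1 := G_succ n t
      have h2 := ih (3 * t)
      have h3 := G_neg n (2 - 3 * t) (by linarith)
      rw [show -(2 - 3 * t) = 3 * t - 2 by ring] at h3
      refine h1.trans ((mul_le_mul_right (add_le_add h2 h3) _).trans ?_)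
      rw [← ENNReal.ofReal_add (by positivity) (by positivity),
        ← ENNReal.ofReal_mul (by positivity)]
      apply ENNReal.ofReal_le_ofReal
      have e1 : 1 ≤ Real.sqrt (2 - 3 * t) := Real.le_sqrt_of_sq_le (by linarith)
      have e2 : ((2 : ℝ) / 3) ^ n / (2 * Real.sqrt (2 - 3 * t)) ≤ (2 / 3) ^ n / (2 * 1) := by
        gcongr
      have e3 : 1 / Real.sqrt 3 ≤ 1 / 1.7 := by gcongr
      calc 1 / Real.sqrt 3 * (4 * (2 / 3) ^ n + (2 / 3) ^ n / (2 * Real.sqrt (2 - 3 * t)))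
          ≤ 1 / 1.7 * (4 * (2 / 3) ^ n + (2 / 3) ^ n / (2 * 1)) := by gcongr
        _ ≤ 4 * (2 / 3) ^ (n + 1) := by
          rw [pow_succ]
          nlinarith
    · refine (G_succ' n t ht).trans ((mul_le_mul_right (ih _) _).trans ?_)
      rw [← ENNReal.ofReal_mul (by positivity)]
      apply ENNReal.ofReal_le_ofReal
      have e3 : 1 / Real.sqrt 3 ≤ 1 / 1.7 := by gcongr
      calc 1 / Real.sqrt 3 * (4 * (2 / 3) ^ n) ≤ 1 / 1.7 * (4 * (2 / 3) ^ n) := by gcongr
        _ ≤ 4 * (2 / 3) ^ (n + 1) := by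
          rw [pow_succ]
          nlinarith

end Pool.Agent.Y237.Rog
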