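import Pool.Agent.Y237.Rog.Line

set_option autoImplicit false

/-!
# Area and strips for the radial Cantor set

`P n = {x : ‖x‖ ^ 2 ∈ C n}` in the Euclidean plane has area `π (2 / 3) ^ n`, and a strip of width
`w` meets it in area at most `8 w (2 / 3) ^ n`.
-/

namespace Pool.Agent.Y237.Rog

open MeasureTheory Set

/-- the Euclidean plane -/
abbrev Plane : Type := EuclideanSpace ℝ (Fin 2)

/-- the radial set over the `n`-th stage -/
def P (n : ℕ) : Set Plane := {x | ‖x‖ ^ 2 ∈ C n}

theorem P_closed (n : ℕ) : IsClosed (P n) := (C_closed n).preimage (by fun_prop)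

theorem P_sub (n : ℕ) : P n ⊆ Metric.closedBall 0 1 := by
  intro x hx
  have := (C_sub n hx).2
  rw [mem_closedBall_zero_iff]
  nlinarith [norm_nonneg x]

theorem P_compact (n : ℕ) : IsCompact (P n) :=
  (isCompact_closedBall (0 : Plane) 1).of_isClosed_subset (P_closed n) (P_sub n)

theorem P_anti : Antitone P := antitone_nat_of_succ_le (fun n _ hx => C_anti n hx)

/-- the area of `{x : ‖x‖ ^ 2 + u ∈ C n}` -/
theorem area (n : ℕ) : ∀ u : ℝ, u ≤ 0 →
    volume {x : Plane | ‖x‖ ^ 2 + u ∈ C n} = ENNReal.ofReal (Real.pi * (2 / 3) ^ n) := by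
  induction n with
  | zero =>
    intro u hu
    have h1 : {x : Plane | ‖x‖ ^ 2 + u ∈ C 0} =
        Metric.closedBall 0 (Real.sqrt (1 - u)) \ Metric.ball 0 (Real.sqrt (-u)) := by
      ext x
      simp only [mem_ofPred_eq, C, mem_Icc, mem_sdiff, mem_closedBall_zero_iff, mem_ball_zero_iff,
        not_lt]
      rw [Real.le_sqrt (norm_nonneg x) (by linarith), Real.sqrt_le_left (norm_nonneg x)]
      constructor
      · rintro ⟨a, b⟩
        exact ⟨by linarith, by linarith⟩
      · rintro ⟨a, b⟩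
        exact ⟨by linarith, by linarith⟩
    have hsub : Metric.ball (0 : Plane) (Real.sqrt (-u)) ⊆
        Metric.closedBall 0 (Real.sqrt (1 - u)) :=
      (Metric.ball_subset_ball (Real.sqrt_le_sqrt (by linarith))).trans
        Metric.ball_subset_closedBall
    rw [h1, measure_sdiff hsub measurableSet_ball.nullMeasurableSet measure_ball_lt_top.ne,
      EuclideanSpace.volume_closedBall_fin_two, EuclideanSpace.volume_ball_fin_two]
    rw [← ENNReal.ofReal_pow (Real.sqrt_nonneg _), ← ENNReal.ofReal_pow (Real.sqrt_nonneg _),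
      Real.sq_sqrt (by linarith), Real.sq_sqrt (by linarith)]
    rw [← ENNReal.ofReal_mul (by linarith), ← ENNReal.ofReal_mul (by linarith),
      ← ENNReal.ofReal_sub _ (by have := Real.pi_pos; nlinarith)]
    congr 1
    ring
  | succ n ih =>
    intro u hu
    have h3p := sqrt3_pos
    have hset : ∀ v : ℝ, (fun x : Plane => Real.sqrt 3 • x) ⁻¹' {x : Plane | ‖x‖ ^ 2 + v ∈ C n} =
        {x : Plane | 3 * ‖x‖ ^ 2 + v ∈ C n} := by
      intro v
      ext x
      simp only [mem_preimage, mem_ofPred_eq, norm_smul, Real.norm_eq_abs, abs_of_pos h3p, mul_pow,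
        sq3]
    have hvol : ∀ v : ℝ, v ≤ 0 → volume {x : Plane | 3 * ‖x‖ ^ 2 + v ∈ C n} =
        ENNReal.ofReal (Real.pi * (2 / 3) ^ n / 3) := by
      intro v hv
      rw [← hset v, Measure.addHaar_preimage_smul volume h3p.ne', ih v hv,
        ← ENNReal.ofReal_mul (abs_nonneg _)]
      congr 1
      have hf : Module.finrank ℝ Plane = 2 := by simp
      rw [hf, sq3, abs_of_pos (by norm_num)]
      ring
    have hun : {x : Plane | ‖x‖ ^ 2 + u ∈ C (n + 1)} =
        {x : Plane | 3 * ‖x‖ ^ 2 + 3 * u ∈ C n} ∪ {x : Plane | 3 * ‖x‖ ^ 2 + (3 * u - 2) ∈ C n} := by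
      ext x
      simp only [mem_ofPred_eq, C, mem_union]
      rw [show 3 * (‖x‖ ^ 2 + u) = 3 * ‖x‖ ^ 2 + 3 * u by ring,
        show 3 * ‖x‖ ^ 2 + 3 * u - 2 = 3 * ‖x‖ ^ 2 + (3 * u - 2) by ring]
    have hdis : Disjoint {x : Plane | 3 * ‖x‖ ^ 2 + 3 * u ∈ C n}
        {x : Plane | 3 * ‖x‖ ^ 2 + (3 * u - 2) ∈ C n} := by
      rw [Set.disjoint_left]
      intro x h1 h2
      have a := (C_sub n h1).2
      have b := (C_sub n h2).1
      linarith
    have hmeas : MeasurableSet {x : Plane | 3 * ‖x‖ ^ 2 + (3 * u - 2) ∈ C n} :=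
      ((C_closed n).preimage (by fun_prop :
        Continuous (fun x : Plane => 3 * ‖x‖ ^ 2 + (3 * u - 2)))).measurableSet
    rw [hun, measure_union hdis hmeas, hvol _ (by linarith), hvol _ (by linarith),
      ← ENNReal.ofReal_add (by positivity) (by positivity)]
    congr 1
    rw [pow_succ]
    ring

theorem vol_P (n : ℕ) : volume (P n) = ENNReal.ofReal (Real.pi * (2 / 3) ^ n) := by
  have := area n 0 le_rfl
  simpa [P] using this

/-- the slices of `P n` parallel to a coordinate axis -/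
theorem slice (n : ℕ) (t : ℝ) :
    volume {y : ℝ | t + y ^ 2 ∈ C n} ≤ ENNReal.ofReal (8 * (2 / 3) ^ n) := by
  have hsub : {y : ℝ | t + y ^ 2 ∈ C n} ⊆ {y : ℝ | 0 ≤ y ∧ y ^ 2 + t ∈ C n} ∪
      (fun y => -y) ⁻¹' {y : ℝ | 0 ≤ y ∧ y ^ 2 + t ∈ C n} := by
    intro y hy
    rcases le_total 0 y with h | h
    · exact Or.inl ⟨h, by rw [add_comm]; exact hy⟩
    · right
      refine ⟨by linarith, ?_⟩
      rw [neg_sq, add_comm]
      exact hy
  refine (measure_mono hsub).trans ((measure_union_le _ _).trans ?_)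
  have h2 : volume ((fun y : ℝ => -y) ⁻¹' {y : ℝ | 0 ≤ y ∧ y ^ 2 + t ∈ C n}) =
      volume {y : ℝ | 0 ≤ y ∧ y ^ 2 + t ∈ C n} := Measure.measure_preimage_neg _ _
  rw [h2]
  have h := G_le n t
  unfold G at h
  refine (add_le_add h h).trans ?_
  rw [← ENNReal.ofReal_add (by positivity) (by positivity)]
  apply ENNReal.ofReal_le_ofReal
  linarith

/-- vertical strips -/
theorem strip0 (n : ℕ) (c w : ℝ) :
    volume ({x : Plane | c ≤ x 0 ∧ x 0 ≤ c + w} ∩ P n) ≤
      ENNReal.ofReal (8 * w * (2 / 3) ^ n) := by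
  have hmp1 := EuclideanSpace.volume_preserving_symm_measurableEquiv_toLp (Fin 2)
  have hmp2 := MeasureTheory.volume_preserving_finTwoArrow ℝ
  set A : Set (ℝ × ℝ) := {p | (c ≤ p.1 ∧ p.1 ≤ c + w) ∧ p.1 ^ 2 + p.2 ^ 2 ∈ C n} with hA
  have hAm : MeasurableSet A := by
    have h1 : IsClosed {p : ℝ × ℝ | c ≤ p.1} := isClosed_le continuous_const continuous_fst
    have h2 : IsClosed {p : ℝ × ℝ | p.1 ≤ c + w} := isClosed_le continuous_fst continuous_const
    have h3 : IsClosed {p : ℝ × ℝ | p.1 ^ 2 + p.2 ^ 2 ∈ C n} :=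
      (C_closed n).preimage (by fun_prop)
    exact ((h1.inter h2).inter h3).measurableSet
  have hpre : ({x : Plane | c ≤ x 0 ∧ x 0 ≤ c + w} ∩ P n) =
      (⇑MeasurableEquiv.finTwoArrow ∘ ⇑(MeasurableEquiv.toLp 2 (Fin 2 → ℝ)).symm) ⁻¹' A := by
    ext x
    simp only [mem_inter_iff, mem_ofPred_eq, P, mem_preimage, hA]
    rw [EuclideanSpace.norm_sq_eq]
    simp [Fin.sum_univ_two]
  rw [hpre, (hmp2.comp hmp1).measure_preimage hAm.nullMeasurableSet,
    Measure.volume_eq_prod, Measure.prod_apply hAm]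
  have hbound : ∀ a : ℝ, volume (Prod.mk a ⁻¹' A) ≤
      (Icc c (c + w)).indicator (fun _ => ENNReal.ofReal (8 * (2 / 3) ^ n)) a := by
    intro a
    by_cases ha : a ∈ Icc c (c + w)
    · rw [indicator_of_mem ha]
      refine le_trans (measure_mono ?_) (slice n (a ^ 2))
      intro y hy
      exact hy.2
    · rw [indicator_of_notMem ha]
      have : Prod.mk a ⁻¹' A = ∅ := by
        ext y
        simp only [mem_preimage, mem_empty_iff_false, iff_false]
        intro h
        exact ha h.1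
      rw [this]
      simp
  refine (lintegral_mono hbound).trans ?_
  rw [lintegral_indicator measurableSet_Icc, lintegral_const, Measure.restrict_apply_univ,
    Real.volume_Icc, ← ENNReal.ofReal_mul (by positivity)]
  apply ENNReal.ofReal_le_ofReal
  apply le_of_eq
  ring

/-- strips in all directions -/
theorem strip (n : ℕ) (u : Plane) (hu : ‖u‖ = 1) (c w : ℝ) :
    volume ({x : Plane | c ≤ inner ℝ u x ∧ inner ℝ u x ≤ c + w} ∩ P n) ≤
      ENNReal.ofReal (8 * w * (2 / 3) ^ n) := by
  have hon : Orthonormal ℝ (({0} : Set (Fin 2)).domRestrict (fun _ : Fin 2 => u)) := by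
    constructor
    · rintro ⟨i, hi⟩
      simpa using hu
    · rintro ⟨i, hi⟩ ⟨j, hj⟩ hij
      exfalso
      apply hij
      rw [mem_singleton_iff] at hi hj
      subst hi
      subst hj
      rfl
  obtain ⟨b, hb⟩ := hon.exists_orthonormalBasis_extension_of_card_eq (by simp)
  have hb0 : b 0 = u := hb 0 rfl
  have hmp := b.repr.measurePreserving
  have hpre : ({x : Plane | c ≤ inner ℝ u x ∧ inner ℝ u x ≤ c + w} ∩ P n) =
      b.repr ⁻¹' ({x : Plane | c ≤ x 0 ∧ x 0 ≤ c + w} ∩ P n) := by
    ext x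
    simp only [mem_inter_iff, mem_ofPred_eq, P, mem_preimage, LinearIsometryEquiv.norm_map,
      OrthonormalBasis.repr_apply_apply, hb0]
  have hm : MeasurableSet ({x : Plane | c ≤ x 0 ∧ x 0 ≤ c + w} ∩ P n) := by
    have h1 : IsClosed {x : Plane | c ≤ x 0} := isClosed_le continuous_const (by fun_prop)
    have h2 : IsClosed {x : Plane | x 0 ≤ c + w} := isClosed_le (by fun_prop) continuous_const
    exact ((h1.inter h2).inter (P_closed n)).measurableSet
  rw [hpre, hmp.measure_preimage hm.nullMeasurableSet]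
  exact strip0 n c w

/-- The radial Cantor set: the union of the circles about the origin whose squared radius is in the
middle thirds Cantor set. -/
def T : Set Plane := ⋂ n, P n

theorem T_bounded : Bornology.IsBounded T :=
  (Metric.isBounded_closedBall (x := (0 : Plane)) (r := 1)).subset
    ((iInter_subset P 0).trans (P_sub 0))

theorem T_closed : IsClosed T := isClosed_iInter P_closed

theorem T_null : volume T = 0 := by
  have h : ∀ n, volume T ≤ ENNReal.ofReal (Real.pi * (2 / 3) ^ n) := fun n =>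
    (measure_mono (iInter_subset P n)).trans (vol_P n).le
  have hlim : Filter.Tendsto (fun n : ℕ => ENNReal.ofReal (Real.pi * (2 / 3) ^ n)) Filter.atTop
      (nhds (ENNReal.ofReal (Real.pi * 0))) := by
    apply ENNReal.tendsto_ofReal
    exact (tendsto_pow_atTop_nhds_zero_of_lt_one (by norm_num) (by norm_num)).const_mul _
  have := ge_of_tendsto' hlim h
  simpa using this

/-- A cover of the radial Cantor set by countably many strips has total width at least `π / 16`. -/
theorem T_cover {ι : Type*} [Countable ι] (u : ι → Plane) (hu : ∀ i, ‖u i‖ = 1) (c w : ι → ℝ)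
    (hw : ∀ i, 0 < w i) (hcov : T ⊆ ⋃ i, {x | c i ≤ inner ℝ (u i) x ∧ inner ℝ (u i) x ≤ c i + w i})
    (hs : Summable w) : Real.pi / 16 ≤ ∑' i, w i := by
  classical
  set U : Set Plane := ⋃ i, {x | c i - w i / 2 < inner ℝ (u i) x ∧
    inner ℝ (u i) x < c i + w i + w i / 2} with hU
  have hUo : IsOpen U := by
    apply isOpen_iUnion
    intro i
    have h1 : IsOpen {x : Plane | c i - w i / 2 < inner ℝ (u i) x} :=
      isOpen_lt continuous_const (by fun_prop)
    have h2 : IsOpen {x : Plane | inner ℝ (u i) x < c i + w i + w i / 2} :=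
      isOpen_lt (by fun_prop) continuous_const
    exact h1.inter h2
  have hTU : T ⊆ U := by
    intro x hx
    obtain ⟨i, h1, h2⟩ := mem_iUnion.1 (hcov hx)
    refine mem_iUnion.2 ⟨i, ?_, ?_⟩
    · linarith [hw i]
    · linarith [hw i]
  obtain ⟨n, hn⟩ := exists_subset_nhds_of_isCompact' (V := P) (U := U)
    (P_anti.directed_ge) P_compact P_closed (fun x hx => hUo.mem_nhds (hTU hx))
  have h1 : volume (P n) ≤ ∑' i, ENNReal.ofReal (8 * (2 * w i) * (2 / 3) ^ n) := by
    have hsub : P n ⊆ ⋃ i, ({x : Plane | c i - w i / 2 ≤ inner ℝ (u i) x ∧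
        inner ℝ (u i) x ≤ c i - w i / 2 + 2 * w i} ∩ P n) := by
      intro x hx
      obtain ⟨i, a, b⟩ := mem_iUnion.1 (hn hx)
      refine mem_iUnion.2 ⟨i, ⟨a.le, ?_⟩, hx⟩
      linarith
    refine (measure_mono hsub).trans ((measure_iUnion_le _).trans ?_)
    exact ENNReal.tsum_le_tsum (fun i => strip n (u i) (hu i) _ _)
  have hs' : Summable (fun i => 8 * (2 * w i) * (2 / 3) ^ n) := (((hs.mul_left 2).mul_left 8).mul_right _)
  rw [vol_P, ← ENNReal.ofReal_tsum_of_nonneg (fun i => by have := hw i; positivity) hs',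
    ENNReal.ofReal_le_ofReal_iff (tsum_nonneg (fun i => by have := hw i; positivity))] at h1
  rw [tsum_mul_right, tsum_mul_left, tsum_mul_left] at h1
  have hp : (0 : ℝ) < (2 / 3) ^ n := by positivity
  have := le_of_mul_le_mul_right h1 hp
  linarith

end Pool.Agent.Y237.Rog
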